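import Pool.Agent.Q126.MX11

/-!
# Extreme mixed multiplicities of skeleta: the sequence need not be unimodal

Definitions in `Pool.Agent.Q126.MXD`: `IsPure Δ d` (Mathlib's `AbstractSimplicialComplex Δ` on a
finite vertex set is pure of dimension `d`), the ideals `irr K V = 𝔪` and `skel K Δ i = I_i`, the
product `mixedPower K Δ d u = J^u`, its fiber dimension `fiberDim K Δ d u = dim J^u / 𝔪 J^u`,
`IsMixedMultiplicity K Δ d e` (the `e a` are the mixed multiplicities of the problem) and
`Unimodal`.
-/

namespace Pool.Agent.Results.MP_4aa539_al.NotUnimodal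

open Pool.Agent.Q126.MXD

/-- There is a pure simplicial complex `Δ` of dimension `20` such that over every field `K` the
mixed multiplicities `e_a(𝔪 | I_1, …, I_19)` exist, and the extreme ones `A(i, Δ)` satisfy
`A(17, Δ) < A(16, Δ)` and `A(17, Δ) < A(19, Δ)`, so that `A(0, Δ), …, A(19, Δ)` is not
unimodal. -/
theorem result.{u} : ∃ (V : Type) (_ : Fintype V) (Δ : AbstractSimplicialComplex V),
    IsPure Δ 20 ∧ ∀ (K : Type u) [Field K],
      (∃ e : (Fin 20 →₀ ℕ) → ℚ, IsMixedMultiplicity K Δ 20 e) ∧
      ∀ e : (Fin 20 →₀ ℕ) → ℚ, IsMixedMultiplicity K Δ 20 e →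
        e (Finsupp.single 17 (Fintype.card V - 1)) < e (Finsupp.single 16 (Fintype.card V - 1)) ∧
        e (Finsupp.single 17 (Fintype.card V - 1)) < e (Finsupp.single 19 (Fintype.card V - 1)) ∧
        ¬ Unimodal (fun i : Fin 20 => e (Finsupp.single i (Fintype.card V - 1))) :=
  Pool.Agent.Q126.MX.main

end Pool.Agent.Results.MP_4aa539_al.NotUnimodal
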